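import Pool.Agent.Q208.F.NoClassical

/-!
# `𝔫𝔬 < 𝔠` is consistent

In the Cohen extension there is an `(ω₁, ≤ ℵ₁)`-Aronszajn tree of cardinality `ℵ₁` which no forcing
notion of the extension specialises without adding new subsets of `ω`; so `𝔫𝔬 = ℵ₁` there, while
the continuum is as large as one likes.

The definitions (truth values, names, the forcing relation, forcing notions in the extension) and
lemmas giving the classical meaning of the sentences are in `Pool/Agent/Q208/F/Logic.lean`,
`Iter.lean`, `NoBranch.lean` and `NoClassical.lean`.

The tree: the nodes are the pairs `(δ, i)` of countable ordinals; the predecessors of `(δ, i)` form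
a branch through the countable set of the nodes `(a, j)` with `a, j < δ`, coded by a Cohen real
which belongs to `(δ, i)`. If a forcing notion adds no reals and makes the tree special, say by
`f`, then for some `δ` the sets of the nodes `u` with `f(u) = n` or with no extension of colour
`n` are dense in the countable part of the tree and are coded by a real of the Cohen extension. The
Cohen real of some `(δ, i)` is generic over it, so the branch of `(δ, i)` meets all these sets and
no colour is left for `(δ, i)`.
-/

open Cardinal
open Q208.F

namespace Pool.Agent.Results.MP_31a5ad_lc.NoBelowContinuum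

/-- For every cardinal `κ` there is a nonempty ccc forcing notion `P` (which preserves all
uncountable cardinals) that forces:
* the continuum is larger than `κ`;
* for a set `K` of cardinality `ℵ₁` and a name `lt` for a relation on `K`, `(K, lt)` is an
Aronszajn tree of height `ω₁` (its levels have cardinality at most `ℵ₁`);
* no forcing notion `(X, le)` adds no new subsets of `ω` and forces `(K, lt)` to be special. -/
theorem result (κ : Cardinal.{0}) :
    ∃ (P : Type) (_ : Preorder P), Nonempty P ∧ CCC P ∧ CardinalsPreserved P ∧
      (∀ W : Type, #W ≤ κ → ∀ p : P, p ∈ (forcing P).neg ((forcing P).contLe W)) ∧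
      ∃ (K : Type) (lt : K → K → Set P), #K = Cardinal.aleph 1 ∧
        (∀ p : P, p ∈ (forcing P).isAronszajn lt) ∧
        ∀ (X : Type) (le : X → X → Set P) (p : P),
          p ∈ (forcing P).neg ((forcing P).specialises lt le) := by
  let L : Type := (Order.succ (max κ (Cardinal.aleph 1))).out
  have hL : #L = Order.succ (max κ (Cardinal.aleph 1)) := Cardinal.mk_out _
  have h1 : max κ (Cardinal.aleph 1) < #L := by rw [hL]; exact Order.lt_succ _
  have hω : ℵ₀ < #L := (aleph0_lt_aleph_one.trans_le (le_max_right _ _)).trans h1
  have hN : #Tree.N = Cardinal.aleph 1 := by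
    rw [mk_prod, lift_id, Tree.mk_O]
    exact mul_eq_self aleph0_lt_aleph_one.le
  have hι : Nonempty (Tree.N ↪ L) := by
    rw [← Cardinal.le_def, hN]
    exact (le_max_right _ _).trans h1.le
  obtain ⟨ι⟩ := hι
  refine ⟨CR L Empty, inferInstance, ⟨Cond.top⟩, ccc_Cond, cardinalsPreserved ccc_Cond, ?_,
    Nodes, tr ι, ?_, ?_, ?_⟩
  · intro W hW p
    exact not_contLe ((hW.trans (le_max_left _ _)).trans_lt h1) hω p
  · rw [mk_sum, lift_id, hN]
    exact add_eq_self aleph0_lt_aleph_one.le
  · exact fun p => ⟨isTree_tr ι p, heightOmegaOne_tr ι p, noCofinalBranch_tr ι p⟩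
  · exact fun X le p => not_specialises ι le p

end Pool.Agent.Results.MP_31a5ad_lc.NoBelowContinuum
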